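import Pool.Agent.Q281.QC.Stmt2
import Pool.Agent.Q281.QC.FinCD

set_option autoImplicit false

/-!
# MP_c9c571_nt: a q-analogue of Liu's supercongruence for `n ≡ 1 (mod 4)` (Q1)

`∑_{k<mn} a_k(q) ≡ R_n(q) ∑_{k<m} c_k (mod Φ_n(q)^2)` for all `m ≥ 1` and all `n > 1`, `n ≡ 1 (mod 4)`.

Method. Put `T(N,k) = q^k (1+q^(4k+1))/(1+q) ∏_{i<k} (1-q^(4i+2+2N)) (1-q^(4i+2-2N)) (1-q^(4i+2)) /
((1-q^(4i+4+2N)) (1-q^(4i+4-2N)) (1-q^(4i+4)))`. For odd `N = 2M+1` the sum of `T(N,k)` over `k` terminates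
and equals `q^(-M) [N]_{q^2} (q^3;q^4)_M / (q^5;q^4)_M` (telescoping in `N`). For `N = s n` and modulo
`(q^n-1)^2` the sum over a block `l n ≤ k < (l+1) n` is `w_l(s) B_l` with a rational number `w_l(s)` and
`B_l` independent of `s` (`s = 0` or `s` odd). The evaluations at `s = 1, 3, 5, …` form a triangular system
for the `B_l`, which has the same solution, up to the factor `R_n(q)`, as the system for `n = 1`,
`q → 1`; then one puts `s = 0`. The comparison of the evaluations for `s n` uses complete residue systems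
modulo `n`.
-/

namespace Pool.Agent.Results.MP_c9c571_nt.LiuQAnalogueTwo

open Polynomial Pool.Agent.Q281.QCD Pool.Agent.Q281

/-- `a_k(q)`. -/
noncomputable def a (k : ℕ) : RatFunc ℚ := q ^ k * ((1 + q ^ (4 * k + 1)) / (1 + q)) *
  ∏ j ∈ Finset.range k, ((1 - q ^ (4 * j + 2)) / (1 - q ^ (4 * j + 4))) ^ 3

/-- `R_n(q)`; `[n]_{q^2} = ∑_{i<n} (q^2)^i`. -/
noncomputable def R (n : ℕ) : RatFunc ℚ := q ^ ((1 - (n : ℤ)) / 2) *
  (∑ i ∈ Finset.range n, (q ^ 2) ^ i) *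
    ∏ j ∈ Finset.range ((n - 1) / 2), ((1 - q ^ (4 * j + 3)) / (1 - q ^ (4 * j + 5)))

/-- `∑_{k<m} c_k`. -/
noncomputable def T (m : ℕ) : ℚ :=
  ∑ k ∈ Finset.range m, rise (1 / 2) k ^ 3 / (k.factorial : ℚ) ^ 3

/-- Q1. -/
theorem result : ∀ m n : ℕ, 1 ≤ m → 1 < n → n % 4 = 1 →
    CongrPhiSq n (∑ k ∈ Finset.range (m * n), a k) (R n * ((T m : ℚ) : RatFunc ℚ)) := by
  intro m n _ _ h4
  obtain ⟨t, rfl⟩ : ∃ t, n = 4 * t + 1 := ⟨n / 4, by omega⟩
  apply congr_of_cg (by omega)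
  have key := QC.dworkC t m
  have eS : ∑ k ∈ Finset.range (m * (4 * t + 1)), a k = ∑ k ∈ Finset.range (m * (4 * t + 1)),
      QC.sgC k * QC.PP 2 2 1 2 0 k := by
    refine Finset.sum_congr rfl fun k _ => ?_
    have h1 := QC.PP_pa 2 0 k
    rw [pow_zero, Nat.cast_zero] at h1
    have h2 : QC.pa (q ^ 2) 1 k =
        ∏ j ∈ Finset.range k, ((1 - q ^ (4 * j + 2)) / (1 - q ^ (4 * j + 4))) ^ 3 := by
      rw [QC.pa]
      refine Finset.prod_congr rfl fun i _ => ?_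
      rw [inv_one, one_mul, one_mul]
      have e1 : (q ^ 2) ^ (2 * i + 1) = q ^ (4 * i + 2) := by rw [← pow_mul]; congr 1; ring
      have e2 : (q ^ 2) ^ (2 * i + 2) = q ^ (4 * i + 4) := by rw [← pow_mul]; congr 1; ring
      rw [e1, e2, div_pow]
      congr 1 <;> ring
    rw [h1, h2, a, QC.sgC]
    ring
  have eT : T m = ∑ l ∈ Finset.range m, QC.ww 1 2 0 l := by
    rw [T]
    exact Finset.sum_congr rfl fun l _ => (ww2 1 l).symm
  have eR : R (4 * t + 1) = QC.eC (2 * t) := by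
    have e0 : (4 * t + 1 - 1) / 2 = 2 * t := by omega
    have e1 : ((1 - ((4 * t + 1 : ℕ) : ℤ)) / 2) = -((2 * t : ℕ) : ℤ) := by
      push_cast
      omega
    have h3 : (1 : RatFunc ℚ) - q ^ 2 ≠ 0 := QC.qq_ne 1
    have e2 : ∑ i ∈ Finset.range (4 * t + 1), (q ^ 2) ^ i =
        (1 - (q ^ 2) ^ (2 * (2 * t) + 1)) / (1 - q ^ 2) := by
      rw [eq_div_iff h3, mul_comm, mul_neg_geom_sum]
      congr 2
      ring
    rw [R, QC.eC, e0, e1, e2, zpow_neg, zpow_natCast]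
  rw [eS, eT, eR]
  exact key

end Pool.Agent.Results.MP_c9c571_nt.LiuQAnalogueTwo
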